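import Pool.Agent.Helper65.JE.Defs

/-!
# T1: partition into progressions on which real polynomials are almost constant mod 1
-/

set_option autoImplicit false

open Finset Polynomial fwdDiff
open scoped BigOperators Nat

namespace Pool.Agent.JE

theorem part_sum_pow (D : ℕ) (r q : ℝ) (hq : q ≠ 0) (κ : ℝ) :
    ∑ k ∈ range (D + 1), ((-1 : ℤ) ^ (D - k) * (D.choose k : ℤ) : ℤ) * (κ * (r + q * k) ^ D) =
      κ * q ^ D * (D ! : ℝ) := by
  have h1 := congrFun (fwdDiff_iter_eq_factorial (R := ℝ) (n := D)) (r / q)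
  rw [fwdDiff_iter_eq_sum_shift] at h1
  have h2 : ((D ! : ℝ → ℝ) (r / q)) = (D ! : ℝ) := by simp
  rw [h2] at h1
  rw [← h1, Finset.mul_sum]
  refine Finset.sum_congr rfl fun k _ => ?_
  have h3 : (r + q * k) = q * (r / q + k • (1 : ℝ)) := by
    simp only [nsmul_eq_mul, mul_one]
    field_simp
  rw [h3, mul_pow]
  simp only [zsmul_eq_mul]
  ring

theorem part_sum_zero (D : ℕ) (hD : 1 ≤ D) :
    ∑ k ∈ range (D + 1), (((-1 : ℤ) ^ (D - k) * (D.choose k : ℤ) : ℤ) : ℝ) = 0 := by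
  have h1 := congrFun (fwdDiff_iter_pow_eq_zero_of_lt (R := ℝ) (j := 0) (n := D) (by omega)) 0
  rw [fwdDiff_iter_eq_sum_shift] at h1
  simp only [pow_zero, zsmul_eq_mul, mul_one, Pi.zero_apply] at h1
  exact h1

theorem part_sum_abs (D : ℕ) :
    ∑ k ∈ range (D + 1), |(((-1 : ℤ) ^ (D - k) * (D.choose k : ℤ) : ℤ) : ℝ)| = 2 ^ D := by
  have h : ∀ k ∈ range (D + 1), |(((-1 : ℤ) ^ (D - k) * (D.choose k : ℤ) : ℤ) : ℝ)| =
      ((D.choose k : ℕ) : ℝ) := by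
    intro k _
    push_cast
    rw [abs_mul, abs_pow, abs_neg, abs_one, one_pow, one_mul, Nat.abs_cast]
  rw [Finset.sum_congr rfl h]
  have := Nat.sum_range_choose D
  exact_mod_cast this

/-- Recurrence of monomials, uniform in the coefficients. -/
theorem part_recur (D K : ℕ) (hD : 1 ≤ D) (η : ℝ) (hη : 0 < η) :
    ∃ Q₀ : ℕ, 1 ≤ Q₀ ∧ ∀ κ : Fin K → ℝ, ∃ q : ℕ, 1 ≤ q ∧ q ≤ Q₀ ∧
      ∀ i, ∃ z : ℤ, |κ i * (q : ℝ) ^ D - z| ≤ η := by
  classical
  obtain ⟨L, hL⟩ := exists_nat_gt (((D ! : ℝ) ^ (D - 1) * 2 ^ D) / η)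
  have hLpos : (0 : ℝ) < L := lt_of_le_of_lt (by positivity) hL
  have hL1 : 0 < L := by exact_mod_cast hLpos
  have hLη : (D ! : ℝ) ^ (D - 1) * (2 ^ D / L) ≤ η := by
    rw [div_lt_iff₀ hη] at hL
    rw [← mul_div_assoc, div_le_iff₀ hLpos]
    linarith
  obtain ⟨ι, _, hι⟩ := Combinatorics.Line.exists_mono_in_high_dimension (Fin (D + 1))
    (Fin K → Fin L)
  refine ⟨D ! * Fintype.card ι + 1, by omega, fun κ => ?_⟩
  let C : (ι → Fin (D + 1)) → Fin K → Fin L := fun v i =>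
    ⟨⌊(L : ℝ) * Int.fract (κ i * ((∑ j, (v j : ℕ) : ℕ) : ℝ) ^ D)⌋₊, by
      rw [Nat.floor_lt (by positivity)]
      have := Int.fract_lt_one (κ i * ((∑ j, (v j : ℕ) : ℕ) : ℝ) ^ D)
      nlinarith⟩
  obtain ⟨l, c, hl⟩ := hι C
  let q := (univ.filter fun j => l.idxFun j = none).card
  let r := ∑ j, (((l.idxFun j).getD 0 : Fin (D + 1)) : ℕ)
  have hq1 : 1 ≤ q := by
    obtain ⟨j, hj⟩ := l.proper
    exact Finset.card_pos.2 ⟨j, by simp [hj]⟩
  have hq2 : q ≤ Fintype.card ι := Finset.card_le_univ _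
  have hsum : ∀ x : Fin (D + 1), (∑ j, ((l x j : Fin (D + 1)) : ℕ)) = r + q * x := by
    intro x
    have h1 : ∀ j, ((l x j : Fin (D + 1)) : ℕ) =
        (((l.idxFun j).getD 0 : Fin (D + 1)) : ℕ) + if l.idxFun j = none then (x : ℕ) else 0 := by
      intro j
      change (((l.idxFun j).getD x : Fin (D + 1)) : ℕ) = _
      cases h : l.idxFun j <;> simp
    rw [Finset.sum_congr rfl fun j _ => h1 j, Finset.sum_add_distrib, ← Finset.sum_filter,
      Finset.sum_const, smul_eq_mul]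
  refine ⟨D ! * q, ?_, ?_, fun i => ?_⟩
  · exact Nat.mul_pos (Nat.factorial_pos D) hq1
  · have := Nat.mul_le_mul_left (D !) hq2
    omega
  · -- the values of one line
    have hcell : ∀ x : Fin (D + 1),
        |Int.fract (κ i * ((r : ℝ) + q * (x : ℕ)) ^ D) - Int.fract (κ i * (r : ℝ) ^ D)| ≤
          1 / L := by
      intro x
      have hx := congrFun (hl x) i
      have h0 := congrFun (hl 0) i
      have e1 : ⌊(L : ℝ) * Int.fract (κ i * ((∑ j, ((l x j : Fin (D + 1)) : ℕ) : ℕ) : ℝ) ^ D)⌋₊ =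
          (c i : ℕ) := congrArg Fin.val hx
      have e0 : ⌊(L : ℝ) * Int.fract (κ i * ((∑ j, ((l 0 j : Fin (D + 1)) : ℕ) : ℕ) : ℝ) ^ D)⌋₊ =
          (c i : ℕ) := congrArg Fin.val h0
      rw [hsum] at e1 e0
      push_cast at e1 e0
      simp only [Fin.val_zero, Nat.cast_zero, mul_zero, add_zero] at e0
      have f1 := Nat.floor_le (show (0 : ℝ) ≤ L * Int.fract (κ i * ((r : ℝ) + q * (x : ℕ)) ^ D) by
        positivity)
      have f2 := Nat.lt_floor_add_one ((L : ℝ) * Int.fract (κ i * ((r : ℝ) + q * (x : ℕ)) ^ D))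
      have f3 := Nat.floor_le (show (0 : ℝ) ≤ L * Int.fract (κ i * (r : ℝ) ^ D) by positivity)
      have f4 := Nat.lt_floor_add_one ((L : ℝ) * Int.fract (κ i * (r : ℝ) ^ D))
      rw [e1] at f1 f2
      rw [e0] at f3 f4
      rw [le_div_iff₀ hLpos]
      have : |Int.fract (κ i * ((r : ℝ) + q * (x : ℕ)) ^ D) - Int.fract (κ i * (r : ℝ) ^ D)| * L =
          |L * Int.fract (κ i * ((r : ℝ) + q * (x : ℕ)) ^ D) -
            L * Int.fract (κ i * (r : ℝ) ^ D)| := by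
        rw [← mul_sub, abs_mul, abs_of_pos hLpos, mul_comm]
      rw [this, abs_le]
      constructor <;> linarith
    have hq0 : (q : ℝ) ≠ 0 := by
      have : (0 : ℝ) < q := by exact_mod_cast hq1
      exact this.ne'
    have hid := part_sum_pow D r q hq0 (κ i)
    let w : ℕ → ℝ := fun k => (((-1 : ℤ) ^ (D - k) * (D.choose k : ℤ) : ℤ) : ℝ)
    let z1 : ℤ := ∑ k ∈ range (D + 1), ((-1 : ℤ) ^ (D - k) * (D.choose k : ℤ)) *
      ⌊κ i * ((r : ℝ) + q * k) ^ D⌋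
    have hdiff : |κ i * (q : ℝ) ^ D * (D ! : ℝ) - z1| ≤ 2 ^ D / L := by
      have h1 : κ i * (q : ℝ) ^ D * (D ! : ℝ) - z1 = ∑ k ∈ range (D + 1), w k *
          (Int.fract (κ i * ((r : ℝ) + q * k) ^ D) - Int.fract (κ i * (r : ℝ) ^ D)) := by
        rw [← hid]
        simp only [z1, w]
        push_cast
        have h2 := part_sum_zero D hD
        have h3 : ∑ k ∈ range (D + 1), ((-1 : ℝ) ^ (D - k) * (D.choose k : ℝ)) *
            Int.fract (κ i * (r : ℝ) ^ D) = 0 := by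
          rw [← Finset.sum_mul]
          push_cast at h2
          rw [h2, zero_mul]
        have h4 : ∀ k ∈ range (D + 1), ((-1 : ℝ) ^ (D - k) * (D.choose k : ℝ)) *
            (Int.fract (κ i * ((r : ℝ) + q * k) ^ D) - Int.fract (κ i * (r : ℝ) ^ D)) =
            ((-1 : ℝ) ^ (D - k) * (D.choose k : ℝ)) * (κ i * ((r : ℝ) + q * k) ^ D) -
            ((-1 : ℝ) ^ (D - k) * (D.choose k : ℝ)) * (⌊κ i * ((r : ℝ) + q * k) ^ D⌋ : ℝ) -
            ((-1 : ℝ) ^ (D - k) * (D.choose k : ℝ)) * Int.fract (κ i * (r : ℝ) ^ D) := by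
          intro k _
          have := Int.fract_add_floor (κ i * ((r : ℝ) + q * k) ^ D)
          have h5 : Int.fract (κ i * ((r : ℝ) + q * k) ^ D) = κ i * ((r : ℝ) + q * k) ^ D -
              (⌊κ i * ((r : ℝ) + q * k) ^ D⌋ : ℝ) := by linarith
          rw [h5]
          ring
        rw [Finset.sum_congr rfl h4, Finset.sum_sub_distrib, Finset.sum_sub_distrib, h3, sub_zero]
      rw [h1]
      refine (Finset.abs_sum_le_sum_abs _ _).trans ?_
      have h6 : ∀ k ∈ range (D + 1), |w k *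
          (Int.fract (κ i * ((r : ℝ) + q * k) ^ D) - Int.fract (κ i * (r : ℝ) ^ D))| ≤
          |w k| * (1 / L) := by
        intro k hk
        rw [abs_mul]
        refine mul_le_mul_of_nonneg_left ?_ (abs_nonneg _)
        exact hcell ⟨k, Finset.mem_range.1 hk⟩
      refine (Finset.sum_le_sum h6).trans (le_of_eq ?_)
      rw [← Finset.sum_mul, part_sum_abs]
      ring
    refine ⟨(D ! : ℤ) ^ (D - 1) * z1, ?_⟩
    have h7 : κ i * ((D ! * q : ℕ) : ℝ) ^ D - (((D ! : ℤ) ^ (D - 1) * z1 : ℤ) : ℝ) =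
        (D ! : ℝ) ^ (D - 1) * (κ i * (q : ℝ) ^ D * (D ! : ℝ) - z1) := by
      obtain ⟨D', rfl⟩ : ∃ D', D = D' + 1 := ⟨D - 1, by omega⟩
      push_cast
      rw [mul_pow]
      try simp only [Nat.add_sub_cancel]
      ring
    rw [h7, abs_mul, abs_of_nonneg (by positivity : (0 : ℝ) ≤ (D ! : ℝ) ^ (D - 1))]
    exact (mul_le_mul_of_nonneg_left hdiff (by positivity)).trans hLη

theorem part_unique {q W k c y k' c' y' : ℕ} (hc : c < q) (hy : y < W) (hc' : c' < q)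
    (hy' : y' < W) (h : k * (q * W) + c + q * y = k' * (q * W) + c' + q * y') :
    k = k' ∧ c = c' ∧ y = y' := by
  have h1 : c + q * (k * W + y) = c' + q * (k' * W + y') := by
    have e1 : k * (q * W) + c + q * y = c + q * (k * W + y) := by ring
    have e2 : k' * (q * W) + c' + q * y' = c' + q * (k' * W + y') := by ring
    rw [← e1, ← e2, h]
  have hq : 0 < q := by omega
  have hW : 0 < W := by omega
  have h2 := congrArg (· % q) h1
  simp only [Nat.add_mul_mod_self_left, Nat.mod_eq_of_lt hc, Nat.mod_eq_of_lt hc'] at h2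
  subst h2
  have h3 : k * W + y = k' * W + y' := Nat.eq_of_mul_eq_mul_left hq (by omega)
  have h4 := congrArg (· % W) h3
  simp only [Nat.mul_add_mod_self_right, Nat.mod_eq_of_lt hy, Nat.mod_eq_of_lt hy'] at h4
  subst h4
  have h5 : k = k' := Nat.eq_of_mul_eq_mul_right hW (by omega)
  exact ⟨h5, rfl, rfl⟩

theorem part_natDegree_C_mul_X_le (q : ℝ) : (C q * X : ℝ[X]).natDegree ≤ 1 := by
  simpa using natDegree_C_mul_X_pow_le q 1

theorem part_deg_pow (a q : ℝ) (n : ℕ) :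
    ((C a + C q * X : ℝ[X]) ^ (n + 1) - (C q * X) ^ (n + 1)).natDegree ≤ n := by
  induction n with
  | zero => simp
  | succ n ih =>
    have h : (C a + C q * X : ℝ[X]) ^ (n + 1 + 1) - (C q * X) ^ (n + 1 + 1) =
        (C a + C q * X) * ((C a + C q * X : ℝ[X]) ^ (n + 1) - (C q * X) ^ (n + 1)) +
          C a * (C q * X) ^ (n + 1) := by ring
    have h1 : (C a + C q * X : ℝ[X]).natDegree ≤ 1 := by
      refine (natDegree_add_le _ _).trans (max_le ?_ ?_)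
      · simp
      · exact part_natDegree_C_mul_X_le q
    have h2 : ((C q * X : ℝ[X]) ^ (n + 1)).natDegree ≤ n + 1 := by
      refine natDegree_pow_le.trans ?_
      have := part_natDegree_C_mul_X_le q
      nlinarith
    rw [h]
    refine (natDegree_add_le _ _).trans (max_le ?_ ?_)
    · refine natDegree_mul_le.trans ?_
      omega
    · refine (natDegree_C_mul_le _ _).trans h2

theorem part_split (d : ℕ) (P : ℝ[X]) (hP : P.natDegree ≤ d + 1) (a q : ℝ) :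
    ∃ R : ℝ[X], R.natDegree ≤ d ∧
      ∀ x : ℝ, P.eval (a + q * x) = R.eval x + P.coeff (d + 1) * q ^ (d + 1) * x ^ (d + 1) := by
  let P' : ℝ[X] := P - C (P.coeff (d + 1)) * X ^ (d + 1)
  have hP' : P'.natDegree ≤ d := by
    rw [natDegree_le_iff_coeff_eq_zero]
    intro N hN
    simp only [P', coeff_sub, coeff_C_mul, coeff_X_pow]
    by_cases h : N = d + 1
    · simp [h]
    · rw [if_neg h, mul_zero, sub_zero]
      exact coeff_eq_zero_of_natDegree_lt (by omega)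
  refine ⟨P'.comp (C a + C q * X) + C (P.coeff (d + 1)) *
    ((C a + C q * X : ℝ[X]) ^ (d + 1) - (C q * X) ^ (d + 1)), ?_, ?_⟩
  · have h1 : (C a + C q * X : ℝ[X]).natDegree ≤ 1 := by
      refine (natDegree_add_le _ _).trans (max_le ?_ ?_)
      · simp
      · exact part_natDegree_C_mul_X_le q
    refine (natDegree_add_le _ _).trans (max_le ?_ ?_)
    · refine (natDegree_comp_le).trans ?_
      nlinarith
    · exact (natDegree_C_mul_le _ _).trans (part_deg_pow a q d)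
  · intro x
    have hx : P.eval (a + q * x) = P'.eval (a + q * x) + P.coeff (d + 1) * (a + q * x) ^ (d + 1) := by
      simp [P']
    rw [hx]
    simp only [eval_add, eval_comp, eval_mul, eval_sub, eval_pow, eval_C, eval_X]
    ring

theorem part_aux (K l : ℕ) (hl : 1 ≤ l) : ∀ (d : ℕ) (ε : ℝ), 0 < ε → ε ≤ 1 →
    ∃ W : ℕ, 1 ≤ W ∧ ∀ P : Fin K → ℝ[X], (∀ i, (P i).natDegree ≤ d) →
      ∃ Q : Finset (ℕ × ℕ),
        (∀ q ∈ Q, 1 ≤ q.2 ∧ q.1 + q.2 * (l - 1) < W) ∧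
        (Set.InjOn (fun x : (ℕ × ℕ) × ℕ => x.1.1 + x.1.2 * x.2) {x | x.1 ∈ Q ∧ x.2 < l}) ∧
        ((1 - ε) * W ≤ Q.card * l) ∧
        (∀ q ∈ Q, ∀ i, ∀ s < l, ∃ z : ℤ,
          |(P i).eval ((q.1 + q.2 * s : ℕ) : ℝ) - (P i).eval (q.1 : ℝ) - z| ≤ ε) := by
  classical
  intro d
  induction d with
  | zero =>
    intro ε hε hε1
    refine ⟨l, hl, fun P hP => ⟨{(0, 1)}, ?_, ?_, ?_, ?_⟩⟩
    · intro q hq
      rw [Finset.mem_singleton] at hq
      subst hq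
      exact ⟨le_refl _, by simp; omega⟩
    · rintro ⟨x, s⟩ ⟨hx, -⟩ ⟨y, t⟩ ⟨hy, -⟩ hxy
      simp only [Finset.mem_singleton] at hx hy
      subst hx hy
      simp at hxy
      rw [hxy]
    · simp only [Finset.card_singleton, Nat.cast_one, one_mul]
      have : (0 : ℝ) ≤ l := Nat.cast_nonneg l
      nlinarith
    · intro q _ i s _
      refine ⟨0, ?_⟩
      rw [Polynomial.eq_C_of_natDegree_le_zero (hP i)]
      simp only [eval_C, sub_self, Int.cast_zero, sub_zero, abs_zero]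
      exact hε.le
  | succ d ih =>
    intro ε hε hε1
    obtain ⟨W1, hW1, hPart⟩ := ih (ε / 2) (half_pos hε) (by linarith)
    have hW1r : (0 : ℝ) < W1 := by exact_mod_cast hW1
    have hη : 0 < ε / (2 * (W1 : ℝ) ^ (d + 1)) := by positivity
    obtain ⟨Q₀, hQ₀, hrec⟩ := part_recur (d + 1) K (by omega) _ hη
    have hQ₀r : (0 : ℝ) < Q₀ := by exact_mod_cast hQ₀
    obtain ⟨T, hT⟩ := exists_nat_gt (2 / ε)
    have hTr : (0 : ℝ) < T := lt_trans (by positivity) hT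
    have hT1 : 0 < T := by exact_mod_cast hTr
    refine ⟨W1 * Q₀ * T, Nat.mul_pos (Nat.mul_pos hW1 hQ₀) hT1, fun P hP => ?_⟩
    obtain ⟨q0, hq01, hq0Q, hq0⟩ := hrec (fun i => (P i).coeff (d + 1))
    have hR : ∀ (kc : ℕ × ℕ) (i : Fin K), ∃ R : ℝ[X], R.natDegree ≤ d ∧
        ∀ x : ℝ, (P i).eval (((kc.1 * (q0 * W1) + kc.2 : ℕ) : ℝ) + (q0 : ℝ) * x) = R.eval x +
          (P i).coeff (d + 1) * (q0 : ℝ) ^ (d + 1) * x ^ (d + 1) :=
      fun kc i => part_split d (P i) (hP i) _ _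
    choose R hR1 hR2 using hR
    choose Qf h1 h2 h3 h4 using fun kc : ℕ × ℕ => hPart (R kc) (hR1 kc)
    let T' := W1 * Q₀ * T / (q0 * W1)
    have hBpos : 0 < q0 * W1 := Nat.mul_pos hq01 hW1
    let S : Finset (Σ _ : ℕ × ℕ, ℕ × ℕ) := (range T' ×ˢ range q0).sigma Qf
    let fm : (Σ _ : ℕ × ℕ, ℕ × ℕ) → ℕ × ℕ := fun x =>
      (x.1.1 * (q0 * W1) + x.1.2 + q0 * x.2.1, q0 * x.2.2)
    have hS : ∀ x, x ∈ S ↔ (x.1.1 < T' ∧ x.1.2 < q0) ∧ x.2 ∈ Qf x.1 := by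
      intro x
      simp [S]
    have hval : ∀ x ∈ S, ∀ s < l, x.2.1 + x.2.2 * s < W1 := by
      intro x hx s hs
      have h5 := (h1 x.1 x.2 ((hS x).1 hx).2).2
      have h6 : x.2.2 * s ≤ x.2.2 * (l - 1) := Nat.mul_le_mul_left _ (by omega)
      omega
    have hval0 : ∀ x ∈ S, x.2.1 < W1 := fun x hx => by
      have := hval x hx 0 (by omega)
      omega
    have hinj : Set.InjOn fm S := by
      intro x hx y hy hxy
      have e1 : x.1.1 * (q0 * W1) + x.1.2 + q0 * x.2.1 = y.1.1 * (q0 * W1) + y.1.2 + q0 * y.2.1 :=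
        congrArg Prod.fst hxy
      have e2 : q0 * x.2.2 = q0 * y.2.2 := congrArg Prod.snd hxy
      obtain ⟨e3, e4, e5⟩ := part_unique ((hS x).1 hx).1.2 (hval0 x hx) ((hS y).1 hy).1.2
        (hval0 y hy) e1
      have e6 := Nat.eq_of_mul_eq_mul_left hq01 e2
      obtain ⟨⟨x1, x2⟩, ⟨x3, x4⟩⟩ := x
      obtain ⟨⟨y1, y2⟩, ⟨y3, y4⟩⟩ := y
      simp only at e3 e4 e5 e6
      subst e3 e4 e5 e6
      rfl
    refine ⟨S.image fm, ?_, ?_, ?_, ?_⟩
    · intro q hq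
      obtain ⟨x, hx, rfl⟩ := Finset.mem_image.1 hq
      obtain ⟨⟨hx1, hx2⟩, hx3⟩ := (hS x).1 hx
      refine ⟨Nat.mul_pos hq01 (h1 x.1 x.2 hx3).1, ?_⟩
      change x.1.1 * (q0 * W1) + x.1.2 + q0 * x.2.1 + q0 * x.2.2 * (l - 1) < W1 * Q₀ * T
      have h5 := (h1 x.1 x.2 hx3).2
      have h6 : x.1.2 + q0 * (x.2.1 + x.2.2 * (l - 1)) < q0 * W1 := by
        have h7 : q0 * (x.2.1 + x.2.2 * (l - 1) + 1) ≤ q0 * W1 := Nat.mul_le_mul_left _ h5
        rw [mul_add, mul_one] at h7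
        omega
      have h7 : (x.1.1 + 1) * (q0 * W1) ≤ W1 * Q₀ * T :=
        (Nat.mul_le_mul_right _ hx1).trans (Nat.div_mul_le_self _ _)
      have h8 : x.1.1 * (q0 * W1) + x.1.2 + q0 * x.2.1 + q0 * x.2.2 * (l - 1) =
          x.1.1 * (q0 * W1) + (x.1.2 + q0 * (x.2.1 + x.2.2 * (l - 1))) := by ring
      rw [h8]
      rw [add_mul, one_mul] at h7
      omega
    · rintro ⟨p, s⟩ ⟨hp, hs⟩ ⟨p', s'⟩ ⟨hp', hs'⟩ hval'
      simp only at hp hp' hs hs' hval'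
      obtain ⟨x, hx, rfl⟩ := Finset.mem_image.1 hp
      obtain ⟨y, hy, rfl⟩ := Finset.mem_image.1 hp'
      have e1 : x.1.1 * (q0 * W1) + x.1.2 + q0 * (x.2.1 + x.2.2 * s) =
          y.1.1 * (q0 * W1) + y.1.2 + q0 * (y.2.1 + y.2.2 * s') := by
        have e2 : x.1.1 * (q0 * W1) + x.1.2 + q0 * (x.2.1 + x.2.2 * s) =
          x.1.1 * (q0 * W1) + x.1.2 + q0 * x.2.1 + q0 * x.2.2 * s := by ring
        have e3 : y.1.1 * (q0 * W1) + y.1.2 + q0 * (y.2.1 + y.2.2 * s') =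
          y.1.1 * (q0 * W1) + y.1.2 + q0 * y.2.1 + q0 * y.2.2 * s' := by ring
        rw [e2, e3]
        exact hval'
      obtain ⟨e3, e4, e5⟩ := part_unique ((hS x).1 hx).1.2 (hval x hx s hs) ((hS y).1 hy).1.2
        (hval y hy s' hs') e1
      obtain ⟨⟨x1, x2⟩, x3⟩ := x
      obtain ⟨⟨y1, y2⟩, y3⟩ := y
      simp only at e3 e4 e5
      subst e3 e4
      have e6 := h2 (x1, x2) (x₁ := (x3, s)) ⟨((hS _).1 hx).2, hs⟩ (x₂ := (y3, s'))
        ⟨((hS _).1 hy).2, hs'⟩ e5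
      have e7 : x3 = y3 := congrArg Prod.fst e6
      have e8 : s = s' := congrArg Prod.snd e6
      rw [e7, e8]
    · rw [Finset.card_image_of_injOn hinj, Finset.card_sigma]
      push_cast
      rw [Finset.sum_mul]
      have h5 : ∑ _kc ∈ range T' ×ˢ range q0, (1 - ε / 2) * (W1 : ℝ) ≤
          ∑ kc ∈ range T' ×ˢ range q0, ((Qf kc).card : ℝ) * l :=
        Finset.sum_le_sum fun kc _ => h3 kc
      refine le_trans ?_ h5
      rw [Finset.sum_const, Finset.card_product, Finset.card_range, Finset.card_range,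
        nsmul_eq_mul]
      push_cast
      have h6 : ((W1 : ℝ) * Q₀ * T) ≤ ((T' : ℝ) + 1) * (q0 * W1) := by
        have := Nat.lt_div_mul_add (a := W1 * Q₀ * T) hBpos
        have h7 : W1 * Q₀ * T ≤ (T' + 1) * (q0 * W1) := by
          rw [add_mul, one_mul]
          exact this.le
        exact_mod_cast h7
      have h8 : (q0 : ℝ) * W1 ≤ Q₀ * W1 := by
        have : (q0 : ℝ) ≤ Q₀ := by exact_mod_cast hq0Q
        nlinarith
      have h9 : (Q₀ : ℝ) * W1 ≤ ε / 2 * (W1 * Q₀ * T) := by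
        have h10 : 1 ≤ ε / 2 * T := by
          rw [div_lt_iff₀ hε] at hT
          linarith
        have h11 : 0 < (Q₀ : ℝ) * W1 := by positivity
        nlinarith
      have h12 : (1 - ε / 2) * ((W1 : ℝ) * Q₀ * T) ≤ T' * (q0 * W1) := by nlinarith
      have h13 : 0 ≤ 1 - ε / 2 := by linarith
      have h14 : 0 ≤ (W1 : ℝ) * Q₀ * T := by positivity
      calc (1 - ε) * ((W1 : ℝ) * Q₀ * T) ≤ (1 - ε / 2) * ((1 - ε / 2) * ((W1 : ℝ) * Q₀ * T)) := by
            nlinarith [mul_nonneg (sq_nonneg (ε / 2)) h14]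
        _ ≤ (1 - ε / 2) * (T' * (q0 * W1)) := mul_le_mul_of_nonneg_left h12 h13
        _ = (T' : ℝ) * q0 * ((1 - ε / 2) * W1) := by ring
    · intro q hq i s hs
      obtain ⟨x, hx, rfl⟩ := Finset.mem_image.1 hq
      obtain ⟨z1, hz1⟩ := h4 x.1 x.2 ((hS x).1 hx).2 i s hs
      obtain ⟨z0, hz0⟩ := hq0 i
      have e1 : (((fm x).1 + (fm x).2 * s : ℕ) : ℝ) =
          ((x.1.1 * (q0 * W1) + x.1.2 : ℕ) : ℝ) + (q0 : ℝ) * ((x.2.1 + x.2.2 * s : ℕ) : ℝ) := by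
        simp only [fm]
        push_cast
        ring
      have e2 : (((fm x).1 : ℕ) : ℝ) =
          ((x.1.1 * (q0 * W1) + x.1.2 : ℕ) : ℝ) + (q0 : ℝ) * ((x.2.1 : ℕ) : ℝ) := by
        simp only [fm]
        push_cast
        ring
      rw [e1, e2, hR2, hR2]
      refine ⟨z1 + z0 * (((x.2.1 + x.2.2 * s : ℕ) : ℤ) ^ (d + 1) - ((x.2.1 : ℕ) : ℤ) ^ (d + 1)), ?_⟩
      have e3 : (R x.1 i).eval ((x.2.1 + x.2.2 * s : ℕ) : ℝ) + (P i).coeff (d + 1) *
          (q0 : ℝ) ^ (d + 1) * ((x.2.1 + x.2.2 * s : ℕ) : ℝ) ^ (d + 1) -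
          ((R x.1 i).eval ((x.2.1 : ℕ) : ℝ) + (P i).coeff (d + 1) *
          (q0 : ℝ) ^ (d + 1) * ((x.2.1 : ℕ) : ℝ) ^ (d + 1)) -
          ((z1 + z0 * (((x.2.1 + x.2.2 * s : ℕ) : ℤ) ^ (d + 1) -
            ((x.2.1 : ℕ) : ℤ) ^ (d + 1)) : ℤ) : ℝ) =
          ((R x.1 i).eval ((x.2.1 + x.2.2 * s : ℕ) : ℝ) - (R x.1 i).eval ((x.2.1 : ℕ) : ℝ) - z1) +
          ((P i).coeff (d + 1) * (q0 : ℝ) ^ (d + 1) - z0) *
            (((x.2.1 + x.2.2 * s : ℕ) : ℝ) ^ (d + 1) - ((x.2.1 : ℕ) : ℝ) ^ (d + 1)) := by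
        push_cast
        ring
      rw [e3]
      refine (abs_add_le _ _).trans ?_
      rw [abs_mul]
      have hlt := hval x hx s hs
      have hlt0 := hval0 x hx
      have e4 : |((x.2.1 + x.2.2 * s : ℕ) : ℝ) ^ (d + 1) - ((x.2.1 : ℕ) : ℝ) ^ (d + 1)| ≤
          (W1 : ℝ) ^ (d + 1) := by
        have a1 : ((x.2.1 + x.2.2 * s : ℕ) : ℝ) ^ (d + 1) ≤ (W1 : ℝ) ^ (d + 1) :=
          pow_le_pow_left₀ (Nat.cast_nonneg _) (by exact_mod_cast hlt.le) _
        have a2 : ((x.2.1 : ℕ) : ℝ) ^ (d + 1) ≤ (W1 : ℝ) ^ (d + 1) :=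
          pow_le_pow_left₀ (Nat.cast_nonneg _) (by exact_mod_cast hlt0.le) _
        have a3 : (0 : ℝ) ≤ ((x.2.1 + x.2.2 * s : ℕ) : ℝ) ^ (d + 1) := by positivity
        have a4 : (0 : ℝ) ≤ ((x.2.1 : ℕ) : ℝ) ^ (d + 1) := by positivity
        rw [abs_le]
        constructor <;> linarith
      have e5 : |(P i).coeff (d + 1) * (q0 : ℝ) ^ (d + 1) - z0| *
          |((x.2.1 + x.2.2 * s : ℕ) : ℝ) ^ (d + 1) - ((x.2.1 : ℕ) : ℝ) ^ (d + 1)| ≤
          ε / (2 * (W1 : ℝ) ^ (d + 1)) * (W1 : ℝ) ^ (d + 1) :=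
        mul_le_mul hz0 e4 (abs_nonneg _) hη.le
      have e6 : ε / (2 * (W1 : ℝ) ^ (d + 1)) * (W1 : ℝ) ^ (d + 1) = ε / 2 := by
        field_simp
      rw [e6] at e5
      linarith

/-- T1 -/
theorem part (d K l M : ℕ) (hl : 1 ≤ l) (hM : 1 ≤ M) (ε : ℝ) (hε : 0 < ε) :
    ∃ W : ℕ, 1 ≤ W ∧ ∀ P : Fin K → ℝ[X], (∀ i, (P i).natDegree ≤ d) →
      ∃ Q : Finset (ℕ × ℕ),
        (∀ q ∈ Q, 1 ≤ q.2 ∧ q.1 + q.2 * (M * (l - 1)) < W) ∧
        (Set.InjOn (fun x : (ℕ × ℕ) × ℕ => x.1.1 + x.1.2 * (M * x.2))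
          {x | x.1 ∈ Q ∧ x.2 < l}) ∧
        ((1 - ε) * W ≤ Q.card * l) ∧
        (∀ q ∈ Q, ∀ i, ∀ s ≤ M * (l - 1), ∃ z : ℤ,
          |(P i).eval ((q.1 + q.2 * s : ℕ) : ℝ) - (P i).eval (q.1 : ℝ) - z| ≤ ε) := by
  classical
  have hMl : 1 ≤ M * l := Nat.mul_pos hM hl
  have hMl2 : M * (l - 1) + M = M * l := by
    obtain ⟨l', rfl⟩ : ∃ l', l = l' + 1 := ⟨l - 1, by omega⟩
    simp only [Nat.add_sub_cancel]
    ring
  have hε1 : 0 < min ε 1 / 2 := by positivity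
  obtain ⟨W, hW, hP⟩ := part_aux K (M * l) hMl d (min ε 1 / 2) hε1 (by
    have := min_le_right ε 1
    linarith)
  refine ⟨W, hW, fun P hPd => ?_⟩
  obtain ⟨Q, h1, h2, h3, h4⟩ := hP P hPd
  let gm : (ℕ × ℕ) × ℕ → ℕ × ℕ := fun x => (x.1.1 + x.1.2 * x.2, x.1.2)
  have hinj : Set.InjOn gm (Q ×ˢ range M : Finset ((ℕ × ℕ) × ℕ)) := by
    intro x hx y hy hxy
    rw [Finset.mem_coe, Finset.mem_product, Finset.mem_range] at hx hy
    have e1 : x.1.1 + x.1.2 * x.2 = y.1.1 + y.1.2 * y.2 := congrArg Prod.fst hxy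
    have hMMl : M ≤ M * l := Nat.le_mul_of_pos_right M hl
    exact h2 (x₁ := x) ⟨hx.1, hx.2.trans_le hMMl⟩ (x₂ := y) ⟨hy.1, hy.2.trans_le hMMl⟩ e1
  refine ⟨(Q ×ˢ range M).image gm, ?_, ?_, ?_, ?_⟩
  · intro q hq
    obtain ⟨⟨p, j⟩, hx, rfl⟩ := Finset.mem_image.1 hq
    rw [Finset.mem_product, Finset.mem_range] at hx
    obtain ⟨h5, h6⟩ := h1 p hx.1
    refine ⟨h5, ?_⟩
    change p.1 + p.2 * j + p.2 * (M * (l - 1)) < W
    have h7 : j + M * (l - 1) ≤ M * l - 1 := by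
      have := hx.2
      omega
    have h8 : p.2 * (j + M * (l - 1)) ≤ p.2 * (M * l - 1) := Nat.mul_le_mul_left _ h7
    rw [mul_add] at h8
    omega
  · rintro ⟨p, s⟩ ⟨hp, hs⟩ ⟨p', s'⟩ ⟨hp', hs'⟩ hv
    simp only at hp hp' hs hs' hv
    obtain ⟨⟨x, j⟩, hx, rfl⟩ := Finset.mem_image.1 hp
    obtain ⟨⟨y, j'⟩, hy, rfl⟩ := Finset.mem_image.1 hp'
    rw [Finset.mem_product, Finset.mem_range] at hx hy
    simp only [gm] at hv
    have e1 : x.1 + x.2 * (j + M * s) = y.1 + y.2 * (j' + M * s') := by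
      have a1 : x.1 + x.2 * (j + M * s) = x.1 + x.2 * j + x.2 * (M * s) := by ring
      have a2 : y.1 + y.2 * (j' + M * s') = y.1 + y.2 * j' + y.2 * (M * s') := by ring
      rw [a1, a2]
      exact hv
    have hb : ∀ j s : ℕ, j < M → s < l → j + M * s < M * l := by
      intro j s hj hs
      have : M * (s + 1) ≤ M * l := Nat.mul_le_mul_left _ hs
      rw [mul_add, mul_one] at this
      omega
    have e2 := h2 (x₁ := (x, j + M * s)) ⟨hx.1, hb _ _ hx.2 hs⟩ (x₂ := (y, j' + M * s'))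
      ⟨hy.1, hb _ _ hy.2 hs'⟩ e1
    have e3 : x = y := congrArg Prod.fst e2
    have e4 : j + M * s = j' + M * s' := congrArg Prod.snd e2
    have e5 := congrArg (· % M) e4
    simp only [Nat.add_mul_mod_self_left, Nat.mod_eq_of_lt hx.2, Nat.mod_eq_of_lt hy.2] at e5
    subst e5
    have e6 : s = s' := Nat.eq_of_mul_eq_mul_left hM (by omega)
    rw [e3, e6]
  · rw [Finset.card_image_of_injOn hinj, Finset.card_product, Finset.card_range]
    push_cast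
    push_cast at h3
    have h5 : (1 - ε) * (W : ℝ) ≤ (1 - min ε 1 / 2) * W := by
      have h6 : min ε 1 / 2 ≤ ε := by
        have := min_le_left ε 1
        linarith
      have : (0 : ℝ) ≤ W := Nat.cast_nonneg W
      nlinarith
    refine h5.trans (h3.trans (le_of_eq ?_))
    ring
  · intro q hq i s hs
    obtain ⟨⟨p, j⟩, hx, rfl⟩ := Finset.mem_image.1 hq
    rw [Finset.mem_product, Finset.mem_range] at hx
    have h7 : j + s < M * l := by
      have := hx.2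
      omega
    obtain ⟨z1, hz1⟩ := h4 p hx.1 i (j + s) h7
    obtain ⟨z2, hz2⟩ := h4 p hx.1 i j (by omega)
    refine ⟨z1 - z2, ?_⟩
    have e1 : ((gm (p, j)).1 + (gm (p, j)).2 * s : ℕ) = p.1 + p.2 * (j + s) := by
      simp only [gm]
      ring
    rw [e1]
    change |(P i).eval ((p.1 + p.2 * (j + s) : ℕ) : ℝ) - (P i).eval ((p.1 + p.2 * j : ℕ) : ℝ) -
      ((z1 - z2 : ℤ) : ℝ)| ≤ ε
    have e2 : (P i).eval ((p.1 + p.2 * (j + s) : ℕ) : ℝ) - (P i).eval ((p.1 + p.2 * j : ℕ) : ℝ) -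
      ((z1 - z2 : ℤ) : ℝ) =
      ((P i).eval ((p.1 + p.2 * (j + s) : ℕ) : ℝ) - (P i).eval (p.1 : ℝ) - z1) -
      ((P i).eval ((p.1 + p.2 * j : ℕ) : ℝ) - (P i).eval (p.1 : ℝ) - z2) := by
      push_cast
      ring
    rw [e2]
    refine (abs_sub _ _).trans ?_
    have := min_le_left ε 1
    linarith

end Pool.Agent.JE
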